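import Mathlib
import Pool.Agent.X195.GI4

/-!
# Every gap between the topological and the simplicial index of order complexes is realised

Positive answer to Q1 of MP_6f03fc_co, for every finite group `G` with at least two elements and
all `m > n ≥ 1`; moreover `xind P = m` as well.  Construction: a finite poset `X` built recursively
(disjoint copies of the previous stage, and new maximal elements above two elements of different
copies, twisted by a fixed `s ≠ 1`).  For a simplicial map to `E_k G` a pigeonhole argument on the
colours below an element forces one more colour at each stage, while the twist is recorded by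
integers, which gives a continuous `G`-map to `E_1 G`.  The answer is the disjoint union of `X` and
`Q_n G`.
-/

set_option autoImplicit false

namespace Pool.Agent.Results.MP_6f03fc_co.AllGapsRealised

open Pool.Agent.X195.GI

/-- For every finite group `G` with `|G| ≥ 2` and all integers `m > n ≥ 1` there is a finite free
`G`-poset `P` with `sind Δ(P) = m` and `ind Δ(P) = n`; moreover `xind P = m`. -/
theorem result (G : Type) [Group G] [Fintype G] [Nontrivial G] (m n : ℕ) (hn : 1 ≤ n)
    (hmn : n < m) :
    ∃ P : GPoset G, P.IsFree ∧
      IsLeast {k : ℕ | P.Delta.HasSimpMap (Q G k).Delta} m ∧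
      IsLeast {k : ℕ | P.Delta.HasTopMap (Q G k).Delta} n ∧
      IsLeast {k : ℕ | P.HasMap (Q G k)} m := by
  obtain ⟨P, h1, h2, h3, h4, h5⟩ := main_posets G n m hn hmn
  refine ⟨P, h1, ⟨GPoset.HasMap.simpMap h4, fun k hk => ?_⟩, ⟨h2, fun k hk => ?_⟩,
    ⟨h4, fun k hk => ?_⟩⟩
  · by_contra hlt
    exact h5 k (not_le.mp hlt) hk
  · by_contra hlt
    exact h3 k (not_le.mp hlt) hk
  · by_contra hlt
    exact h5 k (not_le.mp hlt) (GPoset.HasMap.simpMap hk)

end Pool.Agent.Results.MP_6f03fc_co.AllGapsRealised
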